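import Pool.Agent.Helper49.KX.St

/-! # Project KX, module ALG: the algebra of finite sums exists as a ring -/

set_option autoImplicit false

namespace Pool.Agent.Helper36.KX

open Pool.Agent.Helper49.KX

variable {X : Type} [TopologicalSpace X]

/-- the functions `f (h^m x)` -/
noncomputable def phi (h : X ≃ₜ X) : C(X, ℂ) →ₐ[ℂ] (ℤ × X → ℂ) where
  toFun f p := f ((h ^ p.1 : X ≃ₜ X) p.2)
  map_one' := rfl
  map_mul' _ _ := rfl
  map_zero' := rfl
  map_add' _ _ := rfl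
  commutes' _ := rfl

/-- the multiplication operators -/
noncomputable def j0 (h : X ≃ₜ X) : C(X, ℂ) →ₐ[ℂ] Module.End ℂ (ℤ × X → ℂ) :=
  (Algebra.lmul ℂ (ℤ × X → ℂ)).comp (phi h)

theorem j0_apply (h : X ≃ₜ X) (f : C(X, ℂ)) (ξ : ℤ × X → ℂ) (m : ℤ) (x : X) :
    j0 h f ξ (m, x) = f ((h ^ m : X ≃ₜ X) x) * ξ (m, x) := rfl

/-- the shift -/
def sh (X : Type) (a : ℤ) : (ℤ × X → ℂ) →ₗ[ℂ] (ℤ × X → ℂ) where
  toFun ξ p := ξ (p.1 - a, p.2)
  map_add' _ _ := rfl
  map_smul' _ _ := rfl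

theorem sh_mul (X : Type) (a b : ℤ) : (sh X a * sh X b : Module.End ℂ (ℤ × X → ℂ)) = sh X (a + b) := by
  refine LinearMap.ext fun ξ => funext fun p => ?_
  show ξ (p.1 - a - b, p.2) = ξ (p.1 - (a + b), p.2)
  rw [sub_sub]

theorem sh_zero (X : Type) : (sh X 0 : Module.End ℂ (ℤ × X → ℂ)) = 1 := by
  refine LinearMap.ext fun ξ => funext fun p => ?_
  show ξ (p.1 - 0, p.2) = ξ p
  rw [sub_zero]

/-- the shift as a unit -/
def U0 (X : Type) : (Module.End ℂ (ℤ × X → ℂ))ˣ where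
  val := sh X 1
  inv := sh X (-1)
  val_inv := by rw [sh_mul]; exact sh_zero X
  inv_val := by rw [sh_mul]; exact sh_zero X

theorem U0_zpow (X : Type) (n : ℤ) : (((U0 X) ^ n : (Module.End ℂ (ℤ × X → ℂ))ˣ) :
    Module.End ℂ (ℤ × X → ℂ)) = sh X n := by
  induction n using Int.induction_on with
  | zero => rw [zpow_zero, Units.val_one]; exact (sh_zero X).symm
  | succ k ih =>
    rw [zpow_add_one, Units.val_mul, ih]
    exact sh_mul X k 1
  | pred k ih =>
    rw [zpow_sub_one, Units.val_mul, ih]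
    exact sh_mul X (-k) (-1)

theorem cov0 (h : X ≃ₜ X) : Cov h (j0 h) (U0 X) := by
  intro f
  refine LinearMap.ext fun ξ => funext fun p => ?_
  obtain ⟨m, x⟩ := p
  show f ((h ^ (m - 1) : X ≃ₜ X) x) * ξ (m - 1, x)
    = f ((h ^ (-1 : ℤ) : X ≃ₜ X) ((h ^ m : X ≃ₜ X) x)) * ξ (m - 1, x)
  have h1 : (h ^ (m - 1) : X ≃ₜ X) = (h ^ (-1 : ℤ) : X ≃ₜ X) * (h ^ m : X ≃ₜ X) := by
    rw [← zpow_add]
    congr 1
    ring
  rw [h1]
  rfl

theorem ev_single {A : Type} [Ring A] [Algebra ℂ A] (j : C(X, ℂ) →ₐ[ℂ] A) (U : Aˣ) (n : ℤ)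
    (f : C(X, ℂ)) : ev j U (Finsupp.single n f) = j f * ((U ^ n : Aˣ) : A) := by
  unfold ev
  rw [Finsupp.sum_single_index]
  rw [map_zero, zero_mul]

theorem hALG : StAlg := by
  classical
  intro hE X _ h
  obtain ⟨-, hadd, -, -, hmul⟩ := hE X h _ (j0 h) (U0 X) (cov0 h)
  -- the subalgebra
  let S : Subalgebra ℂ (Module.End ℂ (ℤ × X → ℂ)) :=
    { carrier := Set.range (ev (j0 h) (U0 X))
      mul_mem' := by
        rintro _ _ ⟨g, rfl⟩ ⟨g', rfl⟩
        exact ⟨tw h g g', hmul g g'⟩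
      add_mem' := by
        rintro _ _ ⟨g, rfl⟩ ⟨g', rfl⟩
        exact ⟨g + g', hadd g g'⟩
      algebraMap_mem' := by
        intro c
        refine ⟨Finsupp.single 0 (algebraMap ℂ _ c), ?_⟩
        rw [ev_single, zpow_zero, Units.val_one, mul_one, AlgHom.commutes] }
  have hS : ∀ b, b ∈ S ↔ ∃ g, ev (j0 h) (U0 X) g = b := fun b => Iff.rfl
  have hj : ∀ f, j0 h f ∈ S := fun f =>
    ⟨Finsupp.single 0 f, by rw [ev_single, zpow_zero, Units.val_one, mul_one]⟩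
  have hU : ((U0 X : (Module.End ℂ (ℤ × X → ℂ))ˣ) : Module.End ℂ (ℤ × X → ℂ)) ∈ S :=
    ⟨Finsupp.single 1 1, by rw [ev_single, zpow_one, map_one, one_mul]⟩
  have hU' : (((U0 X)⁻¹ : (Module.End ℂ (ℤ × X → ℂ))ˣ) : Module.End ℂ (ℤ × X → ℂ)) ∈ S :=
    ⟨Finsupp.single (-1) 1, by rw [ev_single, zpow_neg_one, map_one, one_mul]⟩
  let j : C(X, ℂ) →ₐ[ℂ] S := (j0 h).codRestrict S hj
  let U : Sˣ :=
    { val := ⟨_, hU⟩
      inv := ⟨_, hU'⟩
      val_inv := Subtype.ext (Units.mul_inv _)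
      inv_val := Subtype.ext (Units.inv_mul _) }
  have hUm : Units.map (S.val.toRingHom.toMonoidHom) U = U0 X := Units.ext rfl
  have hUn : ∀ n : ℤ, (((U ^ n : Sˣ) : S) : Module.End ℂ (ℤ × X → ℂ))
      = (((U0 X) ^ n : (Module.End ℂ (ℤ × X → ℂ))ˣ) : Module.End ℂ (ℤ × X → ℂ)) := by
    intro n
    rw [← hUm, ← map_zpow]
    rfl
  have hev : ∀ g : FS X, ((ev j U g : S) : Module.End ℂ (ℤ × X → ℂ)) = ev (j0 h) (U0 X) g := by
    intro g
    unfold ev Finsupp.sum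
    rw [AddSubmonoidClass.coe_finsetSum]
    refine Finset.sum_congr rfl fun n _ => ?_
    rw [MulMemClass.coe_mul, hUn]
    rfl
  refine ⟨S, inferInstance, inferInstance, j, U, ?_, ?_, ?_⟩
  · intro f
    exact Subtype.ext (cov0 h f)
  · intro g g' hgg
    have h1 : ev (j0 h) (U0 X) g = ev (j0 h) (U0 X) g' := by
      rw [← hev, ← hev, hgg]
    have hval : ∀ (g : FS X) (n : ℤ) (x : X),
        ev (j0 h) (U0 X) g (fun p => if p = (0, x) then 1 else 0) (n, x)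
          = g n ((h ^ n : X ≃ₜ X) x) := by
      intro g n x
      unfold ev Finsupp.sum
      rw [LinearMap.sum_apply, Finset.sum_apply]
      have h2 : ∀ k ∈ g.support, ((j0 h) (g k) * (((U0 X) ^ k : (Module.End ℂ (ℤ × X → ℂ))ˣ) :
          Module.End ℂ (ℤ × X → ℂ))) (fun p => if p = (0, x) then 1 else 0) (n, x)
          = if k = n then g n ((h ^ n : X ≃ₜ X) x) else 0 := by
        intro k _
        rw [U0_zpow]
        show g k ((h ^ n : X ≃ₜ X) x) * (if ((n - k, x) : ℤ × X) = (0, x) then (1 : ℂ) else 0) = _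
        by_cases hk : k = n
        · subst hk
          simp
        · have h3 : ((n - k, x) : ℤ × X) ≠ (0, x) := by
            intro h4
            have := (Prod.mk.inj h4).1
            exact hk (by omega)
          rw [if_neg h3, if_neg hk, mul_zero]
      rw [Finset.sum_congr rfl h2, Finset.sum_ite_eq']
      by_cases hn : n ∈ g.support
      · rw [if_pos hn]
      · rw [if_neg hn, Finsupp.notMem_support_iff.1 hn]
        rfl
    refine Finsupp.ext fun n => ContinuousMap.ext fun y => ?_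
    have h5 := congrFun (LinearMap.congr_fun h1
      (fun p => if p = (0, (h ^ (-n) : X ≃ₜ X) y) then 1 else 0)) (n, (h ^ (-n) : X ≃ₜ X) y)
    rw [hval, hval] at h5
    have h6 : (h ^ n : X ≃ₜ X) ((h ^ (-n) : X ≃ₜ X) y) = y := by
      have h7 : (h ^ n : X ≃ₜ X) * (h ^ (-n) : X ≃ₜ X) = 1 := by
        rw [← zpow_add]
        simp
      exact congrArg (fun e : X ≃ₜ X => e y) h7
    rw [h6] at h5
    exact h5
  · rintro ⟨b, hb⟩
    obtain ⟨g, rfl⟩ := (hS b).1 hb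
    exact ⟨g, Subtype.ext (hev g)⟩

end Pool.Agent.Helper36.KX
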